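import Mathlib

/-! Averaging over the permutations of a type class. -/

open Set Filter Topology MeasureTheory

namespace Pool.Agent.Helper10.Weiss

/-- Two words of the same type differ by a permutation of the places. -/
theorem exists_perm_of_type {ι W : Type*} [Fintype ι] [DecidableEq ι] [DecidableEq W]
    {w w' : ι → W} (h : ∀ b, (Finset.univ.filter (fun i => w i = b)).card =
      (Finset.univ.filter (fun i => w' i = b)).card) :
    ∃ σ : Equiv.Perm ι, w ∘ σ = w' := by
  classical
  have e : ∀ b, Nonempty ({i // w' i = b} ≃ {i // w i = b}) := by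
    intro b
    refine ⟨Fintype.equivOfCardEq ?_⟩
    rw [Fintype.card_subtype, Fintype.card_subtype, h b]
  let e := fun b => Classical.choice (e b)
  refine ⟨Equiv.ofFiberEquiv e, ?_⟩
  funext i
  exact Equiv.ofFiberEquiv_map e i

theorem exists_perm_inter {ι W : Type*} [Fintype ι] [DecidableEq ι] [Fintype W] [DecidableEq W]
    (τ : W → ℕ) (C S : Finset (ι → W))
    (hC : ∀ w ∈ C, ∀ b, (Finset.univ.filter (fun i => w i = b)).card = τ b)
    (hS : ∀ w ∈ S, ∀ b, (Finset.univ.filter (fun i => w i = b)).card = τ b) :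
    ∃ π : Equiv.Perm ι, C.card * S.card ≤
      (Finset.univ.filter (fun w : ι → W =>
        ∀ b, (Finset.univ.filter (fun i => w i = b)).card = τ b)).card *
      (S.filter (fun w => w ∘ π ∈ C)).card := by
  classical
  set T : Finset (ι → W) := Finset.univ.filter (fun w : ι → W =>
    ∀ b, (Finset.univ.filter (fun i => w i = b)).card = τ b) with hT
  have memT : ∀ w, w ∈ T ↔ ∀ b, (Finset.univ.filter (fun i => w i = b)).card = τ b := by
    intro w
    simp [hT]
  rcases S.eq_empty_or_nonempty with hSe | ⟨w₀, hw₀⟩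
  · exact ⟨1, by simp [hSe]⟩
  set N : ℕ := (Finset.univ.filter (fun π : Equiv.Perm ι => w₀ ∘ π = w₀)).card with hN
  have hconst : ∀ w ∈ T, ∀ c ∈ T,
      (Finset.univ.filter (fun π : Equiv.Perm ι => w ∘ π = c)).card = N := by
    intro w hw c hc
    obtain ⟨σ, hσ⟩ : ∃ σ : Equiv.Perm ι, w₀ ∘ σ = w :=
      exists_perm_of_type fun b => (hS w₀ hw₀ b).trans ((memT w).1 hw b).symm
    obtain ⟨ρ, hρ⟩ : ∃ ρ : Equiv.Perm ι, w₀ ∘ ρ = c :=
      exists_perm_of_type fun b => (hS w₀ hw₀ b).trans ((memT c).1 hc b).symm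
    rw [hN]
    refine Finset.card_bij' (fun π _ => σ * π * ρ⁻¹) (fun π _ => σ⁻¹ * π * ρ) ?_ ?_ ?_ ?_
    · intro π hπ
      have h1 : w ∘ π = c := (Finset.mem_filter.mp hπ).2
      refine Finset.mem_filter.mpr ⟨Finset.mem_univ _, ?_⟩
      funext i
      have h2 := congrFun h1 (ρ⁻¹ i)
      rw [← hσ, ← hρ] at h2
      simpa using h2
    · intro π hπ
      have h1 : w₀ ∘ π = w₀ := (Finset.mem_filter.mp hπ).2
      refine Finset.mem_filter.mpr ⟨Finset.mem_univ _, ?_⟩
      funext i
      have h2 := congrFun h1 (ρ i)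
      rw [← hσ, ← hρ]
      simpa using h2
    · intro π _
      simp [mul_assoc]
    · intro π _
      simp [mul_assoc]
  have hST : ∀ w ∈ S, w ∈ T := fun w hw => (memT w).2 (hS w hw)
  have hCT : ∀ w ∈ C, w ∈ T := fun w hw => (memT w).2 (hC w hw)
  have hTN : T.card * N = Fintype.card (Equiv.Perm ι) := by
    have h1 : ∑ c ∈ T, (Finset.univ.filter (fun π : Equiv.Perm ι => w₀ ∘ π = c)).card =
        T.card * N := by
      rw [Finset.sum_congr rfl fun c hc => hconst w₀ (hST w₀ hw₀) c hc, Finset.sum_const,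
        smul_eq_mul]
    rw [← h1, ← Finset.card_univ]
    refine (Finset.card_eq_sum_card_fiberwise (f := fun π : Equiv.Perm ι => w₀ ∘ π)
      (t := T) ?_).symm
    intro π _
    refine (memT _).2 fun b => ?_
    rw [← hS w₀ hw₀ b]
    refine Finset.card_bij (fun i _ => π i) ?_ ?_ ?_
    · intro i hi
      simpa using hi
    · intro i _ j _ hij
      exact π.injective hij
    · intro j hj
      refine ⟨π.symm j, by simpa using hj, by simp⟩
  by_contra hcon
  push Not at hcon
  have h1 : ∑ π : Equiv.Perm ι, T.card * (S.filter (fun w => w ∘ π ∈ C)).card <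
      ∑ _π : Equiv.Perm ι, C.card * S.card :=
    Finset.sum_lt_sum_of_nonempty Finset.univ_nonempty fun π _ => hcon π
  have h2 : ∑ π : Equiv.Perm ι, (S.filter (fun w => w ∘ π ∈ C)).card = S.card * (C.card * N) := by
    have h3 : ∀ π : Equiv.Perm ι, (S.filter (fun w => w ∘ π ∈ C)).card =
        ∑ w ∈ S, ∑ c ∈ C, if w ∘ π = c then 1 else 0 := by
      intro π
      rw [Finset.card_filter]
      refine Finset.sum_congr rfl fun w _ => ?_
      rw [Finset.sum_ite_eq]
    simp only [h3]
    rw [Finset.sum_comm]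
    rw [Finset.sum_congr rfl (g := fun _ => C.card * N), Finset.sum_const, smul_eq_mul]
    intro w hw
    rw [Finset.sum_comm]
    rw [Finset.sum_congr rfl (g := fun _ => N), Finset.sum_const, smul_eq_mul]
    intro c hc
    rw [← hconst w (hST w hw) c (hCT c hc), Finset.card_filter]
  rw [← Finset.mul_sum, h2, Finset.sum_const, smul_eq_mul, Finset.card_univ, ← hTN] at h1
  refine absurd h1 (not_lt.mpr (le_of_eq ?_))
  ring

end Pool.Agent.Helper10.Weiss
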