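import Mathlib

/-! Counting sparse functions. -/

open Set Filter Topology MeasureTheory

namespace Pool.Agent.Helper10.Weiss

theorem card_sparse_le {ι β : Type*} [Fintype ι] [DecidableEq ι] [Fintype β] [DecidableEq β]
    (k : ℕ) {t : ℝ} (ht : 0 < t) (ht1 : t ≤ 1) :
    ((Finset.univ.filter (fun e : ι → Option β =>
      (Finset.univ.filter (fun i => e i ≠ none)).card ≤ k)).card : ℝ) * t ^ k ≤
      (1 + t * Fintype.card β) ^ Fintype.card ι := by
  classical
  have h1 : (1 + t * Fintype.card β : ℝ) = ∑ o : Option β, (if o ≠ none then t else 1) := by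
    rw [Fintype.sum_option]
    simp [mul_comm]
  have h2 : (1 + t * Fintype.card β : ℝ) ^ Fintype.card ι =
      ∑ e : ι → Option β, t ^ (Finset.univ.filter (fun i => e i ≠ none)).card := by
    rw [h1, ← Finset.card_univ, ← Finset.prod_const, Finset.prod_univ_sum]
    rw [Fintype.piFinset_univ]
    refine Finset.sum_congr rfl fun e _ => ?_
    rw [Finset.prod_ite, Finset.prod_const, Finset.prod_const_one, mul_one]
  rw [h2, ← nsmul_eq_mul, ← Finset.sum_const]
  refine le_trans (Finset.sum_le_sum fun e he => ?_)
    (Finset.sum_le_sum_of_subset_of_nonneg (Finset.filter_subset _ _)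
      fun e _ _ => by positivity)
  exact pow_le_pow_of_le_one ht.le ht1 (Finset.mem_filter.mp he).2

end Pool.Agent.Helper10.Weiss
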