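import Pool.Agent.Helper10.Weiss.WS

/-! The base pair. -/

open Set Filter Topology MeasureTheory Pool.Agent.Helper38.Weiss

namespace Pool.Agent.Helper10.Weiss

theorem base_lk_of {X : Type*} [MetricSpace X] [CompactSpace X] [Nonempty X] [MeasurableSpace X]
    [BorelSpace X] (F : X → X) (hFc : Continuous F) (ε₀ ε : ℝ) (hε₀ : 0 < ε₀) (hε : 0 < ε)
    (h : covR F ε₀ < covR F ε)
    (covN_le : ∀ (κ : ℝ), 0 < κ → ∃ T₀ : ℕ, ∀ T ≥ T₀, ∃ (N : ℕ) (φ : X → Fin N),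
      (∀ x y, φ x = φ y → ∀ t < T, dist (F^[t] x) (F^[t] y) ≤ ε₀) ∧
      (N : ℝ) ≤ Real.exp (T * (covR F ε₀ + κ)))
    (sep_ge : ∀ (T : ℕ), 0 < T → ∃ E : Finset X,
      (∀ x ∈ E, ∀ y ∈ E, x ≠ y → ∃ t < T, ε / 2 < dist (F^[t] x) (F^[t] y)) ∧
      Real.exp (covR F ε * T) ≤ E.card)
    (covR_nonneg : 0 ≤ covR F ε₀)
    (exists_packings : ∀ (ν : Measure X) [IsProbabilityMeasure ν] (_ : Ergodic F ν) {n : ℕ}
      (P : X → Fin n) (_ : Measurable P) (L : ℕ) (_ : 0 < L),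
      ∃ A : ℕ → Finset ℕ, (∀ T, Packing L T (A T)) ∧ ∀ δ > 0,
        Tendsto (fun T : ℕ => ν {x | Near P L (law ν F P L) (A T) (orb F x) T (δ * T)})
          atTop (𝓝 1))
    (measurableSet_near : ∀ {n : ℕ} (P : X → Fin n) (_ : Measurable P) (L : ℕ)
      (q : (Fin L → Fin n) → ℝ) (A : Finset ℕ) (T : ℕ) (c : ℝ),
      MeasurableSet {x | Near P L q A (orb F x) T c})
    (base_measure : ∀ (ε₁ : ℝ) (_ : 0 < ε₁) (h₀ h₁ : ℝ)
      (_ : h₀ < h₁) (_ : ∀ T : ℕ, 0 < T → ∃ E : Finset X, (∀ x ∈ E, ∀ y ∈ E, x ≠ y →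
        ∃ t < T, ε₁ ≤ dist (F^[t] x) (F^[t] y)) ∧ Real.exp (h₁ * T) ≤ E.card),
      ∃ ν : Measure X, IsProbabilityMeasure ν ∧ Ergodic F ν ∧ ∃ S' : Set (X × X), IsClosed S' ∧
        Sym S' ∧ (∀ x, (x, x) ∉ S') ∧ ∀ A : ℕ → Set X, (∀ T, MeasurableSet (A T)) →
          Tendsto (fun T => ν (A T)) atTop (𝓝 1) → ∃ T₀ : ℕ, ∀ T ≥ T₀, ∃ E : Finset X,
            (∀ x ∈ E, x ∈ A T) ∧ (∀ x ∈ E, ∀ y ∈ E, x ≠ y → Conf F S' T x y) ∧
            Real.exp (h₀ * T) ≤ E.card) :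
    ∃ ν : Measure X, IsProbabilityMeasure ν ∧ Ergodic F ν ∧
      (∀ ε > 0, ∃ B : Set X, MeasurableSet B ∧ ν (frontier B) = 0 ∧ ν B ≠ 0 ∧ ν B < ε) ∧
      ∃ ρ > 0, ρ < ε₀ ∧ Lk F ν {z | 2 * ε₀ ≤ dist z.1 z.2} {z | ρ < dist z.1 z.2} := by
  set h₀' := covR F ε₀ with hh₀'
  set h₁ := covR F ε with hh₁
  set h₀ := (h₀' + h₁) / 2 with hh₀
  have h₀pos : 0 < h₀ := by rw [hh₀]; linarith
  have h01 : h₀ < h₁ := by rw [hh₀]; linarith
  obtain ⟨ν, hν, herg, S₁, hS₁c, hS₁s, hS₁i, hcount⟩ := base_measure (ε / 2) (by positivity) h₀ h₁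
    h01 (fun T hT => by
      obtain ⟨E, hE, hE'⟩ := sep_ge T hT
      refine ⟨E, fun x hx y hy hne => ?_, hE'⟩
      obtain ⟨t, ht, htd⟩ := hE x hx y hy hne
      exact ⟨t, ht, htd.le⟩)
  have hinf : ∀ Q : Set X, Q.Finite → ν Q ≠ 1 := by
    intro Q hQ hQ1
    obtain ⟨T₀, hT₀⟩ := hcount (fun _ => Q) (fun _ => hQ.measurableSet)
      (by rw [hQ1]; exact tendsto_const_nhds)
    obtain ⟨T₁, hT₁⟩ := exists_nat_gt ((hQ.toFinset.card : ℝ) / h₀)
    obtain ⟨E, hEQ, -, hEc⟩ := hT₀ (max T₀ T₁) (le_max_left _ _)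
    have h1 : E.card ≤ hQ.toFinset.card :=
      Finset.card_le_card fun x hx => hQ.mem_toFinset.mpr (hEQ x hx)
    have h2 : (hQ.toFinset.card : ℝ) < h₀ * (max T₀ T₁ : ℕ) := by
      rw [div_lt_iff₀ h₀pos] at hT₁
      have h3 : (T₁ : ℝ) ≤ ((max T₀ T₁ : ℕ) : ℝ) := by exact_mod_cast le_max_right _ _
      nlinarith
    have h3 := Real.add_one_le_exp (h₀ * (max T₀ T₁ : ℕ))
    have h4 : (E.card : ℝ) ≤ hQ.toFinset.card := by exact_mod_cast h1
    linarith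
  refine ⟨ν, hν, herg, small_sets F ν herg hinf, ?_⟩
  set S : Set (X × X) := {z | ε₀ < dist z.1 z.2} with hS
  set S' : Set (X × X) := S₁ ∪ {z | ε₀ ≤ dist z.1 z.2} with hS'
  have hdc : Continuous fun z : X × X => dist z.1 z.2 := continuous_dist
  have hSo : IsOpen S := isOpen_lt continuous_const hdc
  have hS'c : IsClosed S' := hS₁c.union (isClosed_le continuous_const hdc)
  have hSs : Sym S := by
    intro x y hxy
    show ε₀ < dist y x
    rw [dist_comm]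
    exact hxy
  have hS's : Sym S' := by
    rintro x y (hxy | hxy)
    · exact Or.inl (hS₁s x y hxy)
    · refine Or.inr ?_
      show ε₀ ≤ dist y x
      rw [dist_comm]
      exact hxy
  have hS'i : ∀ x, (x, x) ∉ S' := by
    rintro x (hx | hx)
    · exact hS₁i x hx
    · have : ε₀ ≤ dist x x := hx
      rw [dist_self] at this
      linarith
  obtain ⟨ρ, hρ, hρε, hρS⟩ : ∃ ρ > 0, ρ < ε₀ ∧ ∀ z ∈ S', ρ < dist z.1 z.2 := by
    rcases S'.eq_empty_or_nonempty with he | hne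
    · refine ⟨ε₀ / 2, by positivity, by linarith, fun z hz => ?_⟩
      rw [he] at hz
      exact absurd hz (notMem_empty z)
    · obtain ⟨z₀, hz₀, hmin⟩ := hS'c.isCompact.exists_isMinOn hne hdc.continuousOn
      have hpos : 0 < dist z₀.1 z₀.2 := by
        refine dist_pos.mpr fun heq => hS'i z₀.1 ?_
        have : (z₀.1, z₀.1) = z₀ := Prod.ext rfl heq
        rw [this]
        exact hz₀
      refine ⟨min (dist z₀.1 z₀.2) ε₀ / 2, by positivity, ?_, fun z hz => ?_⟩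
      · have := min_le_right (dist z₀.1 z₀.2) ε₀
        linarith
      · have h1 : dist z₀.1 z₀.2 ≤ dist z.1 z.2 := hmin hz
        have h2 := min_le_left (dist z₀.1 z₀.2) ε₀
        linarith
  refine ⟨ρ, hρ, hρε, ?_, ?_, ?_, S, S', hSo, hS'c, hSs, hS's, ?_, ?_, ?_, ?_⟩
  · intro x y hxy
    show 2 * ε₀ ≤ dist y x
    rw [dist_comm]
    exact hxy
  · intro x y hxy
    show ρ < dist y x
    rw [dist_comm]
    exact hxy
  · intro x hx
    have : ρ < dist x x := hx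
    rw [dist_self] at this
    linarith
  · intro z hz
    have : 2 * ε₀ ≤ dist z.1 z.2 := hz
    show ε₀ < dist z.1 z.2
    linarith
  · intro z hz
    have h1 : ε₀ < dist z.1 z.2 := hz
    exact Or.inr h1.le
  · exact hρS
  set p := (h₀ - h₀') / 2 with hp
  have hppos : 0 < p := by rw [hp, hh₀]; linarith
  refine ⟨p, hppos, ?_⟩
  intro n P hP hPf L hL δ hδ
  obtain ⟨A, hA, htend⟩ := exists_packings ν herg P hP L hL
  set A' : ℕ → Set X := fun T => {x | Near P L (law ν F P L) (A T) (orb F x) T (δ * T)} with hA'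
  obtain ⟨T₀, hT₀⟩ := hcount A' (fun T => measurableSet_near P hP L _ (A T) T _) (htend δ hδ)
  obtain ⟨T₁, hT₁⟩ := covN_le p hppos
  refine ⟨max T₀ T₁, fun T hT => ?_⟩
  obtain ⟨E, hEA, hEc, hEe⟩ := hT₀ T ((le_max_left _ _).trans hT)
  obtain ⟨N, φ, hφ, hN⟩ := hT₁ T ((le_max_right _ _).trans hT)
  have hEpos : (0 : ℝ) < E.card := (Real.exp_pos _).trans_le hEe
  have hEne : E.Nonempty := by
    rw [← Finset.card_pos]
    exact_mod_cast hEpos
  have hsub : S₁ ⊆ S' := subset_union_left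
  have step1 : Leq univ (Conf F S T) (A' T) (Conf F S' T) (N / E.card) := by
    refine Leq.labels φ ?_ E hEne hEA ?_
    · rintro x - y - hxy ⟨t, ht, hc⟩
      have h1 : ε₀ < dist (F^[t] x) (F^[t] y) := hc
      exact absurd (hφ x y hxy t ht) (not_le.mpr h1)
    · intro z hz z' hz' hne
      obtain ⟨t, ht, hc⟩ := hEc z hz z' hz' hne
      exact ⟨t, ht, hsub hc⟩
  have step2 : Leq (A' T) (Conf F S' T) (Typ P L (law ν F P L) δ 0 T) (pw S' T) 1 := by
    refine Leq.of_map (orb F) ?_ ?_ ?_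
    · intro x hx
      refine ⟨A T, hA T, ?_⟩
      rw [add_zero]
      exact hx
    · intro x _ y _ hxy
      exact hxy
    · intro z _
      exact not_pw hS'i T z
  have step3 := Leq.trans (by positivity) step1 step2
  refine step3.mono ?_
  rw [mul_one, div_le_iff₀ hEpos]
  calc (N : ℝ) ≤ Real.exp (T * (h₀' + p)) := hN
    _ = Real.exp (-(p * T)) * Real.exp (h₀ * T) := by
        rw [← Real.exp_add]
        congr 1
        rw [hp]
        ring
    _ ≤ Real.exp (-(p * T)) * E.card := by gcongr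

end Pool.Agent.Helper10.Weiss
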