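import Pool.Agent.Helper38.Weiss.Api

/-! Small sets with null frontier. -/

open Set Filter Topology MeasureTheory Pool.Agent.Helper38.Weiss

namespace Pool.Agent.Helper10.Weiss

theorem small_sets {X : Type*} [MetricSpace X] [CompactSpace X] [MeasurableSpace X]
    [BorelSpace X] (F : X → X) (ν : Measure X) [IsProbabilityMeasure ν] (hF : Ergodic F ν)
    (hinf : ∀ Q : Set X, Q.Finite → ν Q ≠ 1) :
    ∀ ε > 0, ∃ B : Set X, MeasurableSet B ∧ ν (frontier B) = 0 ∧ ν B ≠ 0 ∧ ν B < ε := by
  intro ε hε
  -- no atoms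
  have hatom : ∀ x : X, ν {x} = 0 := by
    intro x
    by_contra hx
    set c := ν {x} with hc
    have hcpos : 0 < c := pos_iff_ne_zero.mpr hx
    set Q : Set X := {y | c ≤ ν {y}} with hQ
    have hQfin : Q.Finite := by
      refine Measure.finite_const_le_meas_of_disjoint_iUnion ν hcpos (As := fun y : X => {y})
        (fun y => measurableSet_singleton y) ?_ (measure_ne_top ν _)
      intro y z hyz
      exact Set.disjoint_singleton.mpr hyz
    have hQsub : Q ⊆ F ⁻¹' Q := by
      intro y hy
      show c ≤ ν {F y}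
      rw [← hF.measure_preimage (measurableSet_singleton (F y)).nullMeasurableSet]
      exact le_trans hy (measure_mono (by intro z hz; rw [mem_singleton_iff.mp hz]; rfl))
    rcases hF.ae_empty_or_univ_of_ae_le_preimage' hQfin.measurableSet.nullMeasurableSet
      (Eventually.of_forall hQsub) (measure_ne_top ν Q) with h | h
    · have h1 : ν Q = 0 := by rw [measure_congr h, measure_empty]
      have h2 : c ≤ ν Q := measure_mono (singleton_subset_iff.mpr (le_refl c))
      rw [h1] at h2
      exact absurd hcpos (not_lt.mpr h2)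
    · exact hinf Q hQfin (by rw [measure_congr h, measure_univ])
  obtain ⟨x, -, hx⟩ := exists_mem_forall_mem_nhdsWithin_pos_measure (μ := ν)
    (s := (univ : Set X)) (by rw [measure_univ]; exact one_ne_zero)
  rw [nhdsWithin_univ] at hx
  obtain ⟨U, hxU, hUo, hUε⟩ := Set.exists_isOpen_lt_of_lt ({x} : Set X) ε (μ := ν)
    (by rw [hatom x]; exact hε)
  obtain ⟨r₁, hr₁, hball⟩ := Metric.isOpen_iff.mp hUo x (hxU (mem_singleton x))
  obtain ⟨r, hr, hfr⟩ := exists_null_frontier_thickening ν ({x} : Set X) hr₁
  rw [Metric.thickening_singleton] at hfr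
  refine ⟨Metric.ball x r, measurableSet_ball, hfr, ?_, ?_⟩
  · exact (hx _ (Metric.ball_mem_nhds x hr.1)).ne'
  · exact (measure_mono ((Metric.ball_subset_ball hr.2.le).trans hball)).trans_lt hUε

end Pool.Agent.Helper10.Weiss
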